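import Mathlib

set_option autoImplicit false

namespace Pool.Agent.P.MP_e0518f_lc

open MeasureTheory

/-- `F : ℝ → ℝ` is a lift of the self-map `f` of the circle `ℝ/ℤ`. -/
def IsLift (F : ℝ → ℝ) (f : UnitAddCircle → UnitAddCircle) : Prop :=
  ∀ x : ℝ, f (x : UnitAddCircle) = ((F x : ℝ) : UnitAddCircle)

/-- Orientation-preserving homeomorphisms of the circle: those with a lift that is an increasing
bijection of the line commuting with `x ↦ x + 1`. -/
def HomeoPlus : Subgroup (UnitAddCircle ≃ₜ UnitAddCircle) where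
  carrier := {f | ∃ F : CircleDeg1Liftˣ, IsLift (F : CircleDeg1Lift) f}
  one_mem' := ⟨1, fun _ => rfl⟩
  mul_mem' := fun ⟨F, hF⟩ ⟨G, hG⟩ => ⟨F * G, fun x => (congrArg _ (hG x)).trans (hF _)⟩
  inv_mem' := fun {f} ⟨F, hF⟩ => ⟨F⁻¹, fun x => f.symm_apply_eq.2
    (((hF _).trans (congrArg _ (CircleDeg1Lift.units_apply_inv_apply F x))).symm)⟩

/-- The topology of the metric `d(f,g) = sup |f - g| + sup |f⁻¹ - g⁻¹|`. -/
@[reducible] def homeoTop : TopologicalSpace HomeoPlus :=
  TopologicalSpace.induced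
    (fun f : HomeoPlus =>
      ((f.1 : C(UnitAddCircle, UnitAddCircle)), (f.1.symm : C(UnitAddCircle, UnitAddCircle))))
    inferInstance

/-- Homeomorphisms with irrational rotation number. -/
def irrationalRotation : Set HomeoPlus :=
  {f | ∃ F : CircleDeg1Lift, IsLift F f.1 ∧ Irrational F.translationNumber}

/-- Haar null sets in the sense of Christensen. -/
def IsHaarNull {G : Type} [Group G] (t : TopologicalSpace G) (S : Set G) : Prop :=
  ∃ A : Set G, S ⊆ A ∧ @MeasurableSet G (@borel G t) A ∧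
    ∃ μ : @Measure G (@borel G t), IsProbabilityMeasure μ ∧
      ∀ g h : G, μ ((fun a => g * a * h) '' A) = 0

end Pool.Agent.P.MP_e0518f_lc
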