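import Mathlib

set_option autoImplicit false

namespace Pool.Agent.P.MP_e0518f_lc

open Int

/-- ramp on the unit interval -/
noncomputable def ramp (M u : ℝ) : ℝ := max 0 (1 - M * (1 - u))

/-- continuous staircase of period one -/
noncomputable def tt (M y : ℝ) : ℝ := ⌊y⌋ + ramp M (fract y)

theorem ramp_mono {M : ℝ} (hM : 1 ≤ M) {u v : ℝ} (h : u ≤ v) : ramp M u ≤ ramp M v := by
  unfold ramp
  apply max_le_max le_rfl
  nlinarith

theorem ramp_nonneg (M u : ℝ) : 0 ≤ ramp M u := le_max_left _ _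

theorem ramp_le {M : ℝ} (hM : 1 ≤ M) {u : ℝ} (h0 : 0 ≤ u) (h1 : u ≤ 1) : ramp M u ≤ u := by
  unfold ramp
  apply max_le h0
  nlinarith

theorem tt_le {M : ℝ} (hM : 1 ≤ M) (y : ℝ) : tt M y ≤ y := by
  have := ramp_le hM (fract_nonneg y) (fract_lt_one y).le
  have h2 := floor_add_fract y
  unfold tt; linarith

theorem le_tt (M y : ℝ) : y - 1 ≤ tt M y := by
  have := ramp_nonneg M (fract y)
  have h2 := sub_one_lt_floor y
  unfold tt; linarith

theorem tt_mono {M : ℝ} (hM : 1 ≤ M) {y z : ℝ} (h : y ≤ z) : tt M y ≤ tt M z := by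
  rcases (floor_mono h).eq_or_lt with he | hl
  · have : fract y ≤ fract z := by
      unfold fract; rw [he]; linarith
    unfold tt; rw [he]
    have := ramp_mono hM this
    linarith
  · have h1 : (⌊y⌋ : ℝ) + 1 ≤ ⌊z⌋ := by exact_mod_cast hl
    have h2 := ramp_le hM (fract_nonneg y) (fract_lt_one y).le
    have h3 := fract_lt_one y
    have h4 := ramp_nonneg M (fract z)
    unfold tt; linarith

theorem tt_add_int (M y : ℝ) (k : ℤ) : tt M (y + k) = tt M y + k := by
  unfold tt
  rw [floor_add_intCast, fract_add_intCast]; push_cast; ring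

theorem tt_continuous {M : ℝ} (hM : 1 ≤ M) : Continuous (tt M) := by
  have h1 : Continuous ((fun u => ramp M u - u) ∘ fract) := by
    apply ContinuousOn.comp_fract''
    · apply Continuous.continuousOn
      unfold ramp; fun_prop
    · simp only [ramp]
      rw [max_eq_left (by linarith)]; simp
  have : tt M = fun y => y + ((fun u => ramp M u - u) ∘ fract) y := by
    funext y
    have h2 := floor_add_fract y
    simp only [tt, Function.comp]; linarith
  rw [this]
  exact continuous_id.add h1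

theorem tt_flat {M : ℝ} (hM : 1 ≤ M) {y : ℝ} {k : ℤ} (h1 : (k : ℝ) ≤ y)
    (h2 : M * y ≤ M * k + M - 1) : tt M y = k := by
  have hlt : y < k + 1 := by nlinarith
  have hf : ⌊y⌋ = k := floor_eq_iff.2 ⟨h1, hlt⟩
  unfold tt ramp fract
  rw [hf, max_eq_left (by nlinarith), add_zero]

/-- strictly increasing staircase with period `M` -/
noncomputable def st (M z : ℝ) : ℝ := z / M + (M - 1) * tt M (z / M)

theorem st_slope {M : ℝ} (hM : 1 ≤ M) {z w : ℝ} (h : z ≤ w) : (w - z) / M ≤ st M w - st M z := by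
  have h0 : 0 < M := by linarith
  have h1 : tt M (z / M) ≤ tt M (w / M) := tt_mono hM (by gcongr)
  unfold st
  have : (w - z) / M = w / M - z / M := by ring
  nlinarith

theorem st_add {M : ℝ} (hM : 1 ≤ M) (z : ℝ) (k : ℤ) : st M (z + k * M) = st M z + k * M := by
  have h0 : M ≠ 0 := by linarith
  have : (z + k * M) / M = z / M + k := by field_simp
  unfold st
  rw [this, tt_add_int]; ring

theorem st_le {M : ℝ} (hM : 1 ≤ M) (z : ℝ) : st M z ≤ z := by
  have h0 : M ≠ 0 := by linarith
  have h1 := tt_le hM (z / M)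
  have h2 : z = M * (z / M) := by field_simp
  unfold st
  nlinarith

theorem le_st {M : ℝ} (hM : 1 ≤ M) (z : ℝ) : z - M ≤ st M z := by
  have h0 : M ≠ 0 := by linarith
  have h1 := le_tt M (z / M)
  have h2 : z = M * (z / M) := by field_simp
  unfold st
  nlinarith

theorem st_continuous {M : ℝ} (hM : 1 ≤ M) : Continuous (st M) := by
  have := tt_continuous hM
  unfold st
  fun_prop

theorem st_flat {M : ℝ} (hM : 1 ≤ M) {z : ℝ} {k : ℤ} (h1 : k * M ≤ z) (h2 : z ≤ k * M + M - 1) :
    k * M ≤ st M z ∧ st M z ≤ k * M + 1 := by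
  have h0 : 0 < M := by linarith
  have h3 : (k : ℝ) ≤ z / M := by rw [le_div_iff₀ h0]; exact h1
  have h4 : M * (z / M) = z := by field_simp
  have h5 : tt M (z / M) = k := tt_flat hM h3 (by rw [h4]; linarith)
  have h6 : z / M ≤ k + 1 := by rw [div_le_iff₀ h0]; linarith
  unfold st
  rw [h5]
  constructor <;> nlinarith

/-- one random step: `N` stairs, `M` sub-steps, offsets `a`, `b` -/
noncomputable def phi (N M : ℕ) (a b : ℕ) (x : ℝ) : ℝ :=
  (a + st M (N * M * x - b)) / (N * M)

variable {N M a b : ℕ}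

theorem phi_add_one (hN : 1 ≤ N) (hM : 1 ≤ M) (x : ℝ) :
    phi N M a b (x + 1) = phi N M a b x + 1 := by
  have hN' : (1 : ℝ) ≤ N := by exact_mod_cast hN
  have hM' : (1 : ℝ) ≤ M := by exact_mod_cast hM
  have h1 : (N : ℝ) * M * (x + 1) - b = (N * M * x - b) + ((N : ℤ) : ℝ) * M := by
    push_cast; ring
  unfold phi
  rw [h1, st_add hM']
  push_cast
  field_simp
  ring

theorem phi_slope (hN : 1 ≤ N) (hM : 1 ≤ M) {x y : ℝ} (h : x ≤ y) :
    (y - x) / M ≤ phi N M a b y - phi N M a b x := by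
  have hN' : (1 : ℝ) ≤ N := by exact_mod_cast hN
  have hM' : (1 : ℝ) ≤ M := by exact_mod_cast hM
  have hL : (0 : ℝ) < N * M := by positivity
  have h1 := st_slope hM' (z := N * M * x - b) (w := N * M * y - b) (by nlinarith)
  unfold phi
  rw [← sub_div, le_div_iff₀ hL]
  have : (y - x) / M * (N * M) = (N * M * y - b - (N * M * x - b)) / M := by
    field_simp; ring
  linarith

theorem phi_dist (hN : 1 ≤ N) (hM : 1 ≤ M) (ha : a ≤ M) (hb : b ≤ M) (x : ℝ) :
    |phi N M a b x - x| ≤ 2 / N := by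
  have hN' : (1 : ℝ) ≤ N := by exact_mod_cast hN
  have hM' : (1 : ℝ) ≤ M := by exact_mod_cast hM
  have ha' : (a : ℝ) ≤ M := by exact_mod_cast ha
  have hb' : (b : ℝ) ≤ M := by exact_mod_cast hb
  have ha0 : (0 : ℝ) ≤ a := by positivity
  have hb0 : (0 : ℝ) ≤ b := by positivity
  have hL : (0 : ℝ) < N * M := by positivity
  have h1 := st_le hM' (N * M * x - b)
  have h2 := le_st hM' (N * M * x - b)
  have e1 : phi N M a b x - x = (a + st M (N * M * x - b) - N * M * x) / (N * M) := by
    unfold phi; field_simp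
  have e2 : (2 : ℝ) / N = 2 * M / (N * M) := by field_simp
  rw [e1, e2, abs_div, abs_of_pos hL]
  gcongr
  rw [abs_le]
  constructor <;> linarith

theorem phi_continuous (hM : 1 ≤ M) : Continuous (phi N M a b) := by
  have hM' : (1 : ℝ) ≤ M := by exact_mod_cast hM
  have := st_continuous hM'
  unfold phi
  fun_prop

theorem phi_flat (hN : 1 ≤ N) (hM : 1 ≤ M) {x : ℝ} {k : ℤ} (h1 : b + k * M ≤ N * M * x)
    (h2 : N * M * x ≤ b + k * M + M - 1) :
    a + k * M ≤ N * M * phi N M a b x ∧ N * M * phi N M a b x ≤ a + k * M + 1 := by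
  have hN' : (1 : ℝ) ≤ N := by exact_mod_cast hN
  have hM' : (1 : ℝ) ≤ M := by exact_mod_cast hM
  have h3 := st_flat hM' (z := N * M * x - b) (k := k) (by linarith) (by linarith)
  have e : N * M * phi N M a b x = a + st M (N * M * x - b) := by
    unfold phi; field_simp
  rw [e]
  constructor <;> linarith [h3.1, h3.2]

end Pool.Agent.P.MP_e0518f_lc
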