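import Mathlib
import Pool.Agent.P.MP_e0518f_lc.Stair

set_option autoImplicit false

namespace Pool.Agent.P.MP_e0518f_lc

open Int

/-- discretised monotone map -/
noncomputable def Gam (L : ℕ) (G : ℝ → ℝ) (i : ℤ) : ℤ := ⌊(L : ℝ) * G (i / L)⌋

theorem Gam_add {L : ℕ} (hL : 1 ≤ L) (G : CircleDeg1Lift) (i p : ℤ) :
    Gam L G (i + p * L) = Gam L G i + p * L := by
  have hL' : (L : ℝ) ≠ 0 := by positivity
  unfold Gam
  have : ((i + p * L : ℤ) : ℝ) / L = i / L + p := by push_cast; field_simp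
  rw [this, G.map_add_int, mul_add]
  have : (L : ℝ) * p = ((p * L : ℤ) : ℝ) := by push_cast; ring
  rw [this, floor_add_intCast]

theorem Gam_mono {L : ℕ} (hL : 1 ≤ L) (G : CircleDeg1Lift) {i j : ℤ} (h : i ≤ j) :
    Gam L G i ≤ Gam L G j := by
  have hL' : (0 : ℝ) < L := by positivity
  have h' : (i : ℝ) ≤ j := by exact_mod_cast h
  unfold Gam
  apply floor_mono
  have : G (i / L) ≤ G (j / L) := G.mono (by gcongr)
  gcongr

/-- the bad offsets -/
noncomputable def badSet (N M : ℕ) (G : ℝ → ℝ) : Finset (ZMod M × ZMod M) := by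
  classical
  exact ((Finset.range (N * M)).sigma
    (fun i => Finset.Ioc (Gam (N * M) G ((i : ℤ) - 1)) (Gam (N * M) G ((i : ℤ) + 2) + 1))).image
    (fun p => ((p.1 : ZMod M), ((p.2 : ℤ) : ZMod M)))

theorem card_badSet {N M : ℕ} (hN : 1 ≤ N) (hM : 1 ≤ M) (G : CircleDeg1Lift) :
    (badSet N M G).card ≤ 4 * (N * M) := by
  classical
  have hL : 1 ≤ N * M := Nat.mul_pos hN hM
  unfold badSet
  refine Finset.card_image_le.trans ?_
  rw [Finset.card_sigma]
  set L := N * M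
  have key : ((∑ i ∈ Finset.range L,
      (Finset.Ioc (Gam L G ((i : ℤ) - 1)) (Gam L G ((i : ℤ) + 2) + 1)).card : ℕ) : ℤ)
      = 4 * L := by
    push_cast
    let D : ℕ → ℤ := fun i => Gam L G ((i : ℤ) + 1) + Gam L G i + Gam L G ((i : ℤ) - 1) + i
    have h1 : ∀ i ∈ Finset.range L,
        ((Finset.Ioc (Gam L G ((i : ℤ) - 1)) (Gam L G ((i : ℤ) + 2) + 1)).card : ℤ)
          = D (i + 1) - D i := by
      intro i _
      have := Gam_mono hL G (i := (i : ℤ) - 1) (j := (i : ℤ) + 2) (by omega)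
      rw [Int.card_Ioc_of_le _ _ (by omega)]
      simp only [D]
      push_cast
      have e1 : (i : ℤ) + 1 + 1 = i + 2 := by ring
      have e2 : (i : ℤ) + 1 - 1 = i := by ring
      rw [e1, e2]; ring
    rw [Finset.sum_congr rfl h1, Finset.sum_range_sub]
    have a1 := Gam_add hL G 1 1
    have a2 := Gam_add hL G 0 1
    have a3 := Gam_add hL G (-1) 1
    simp only [D]
    have e1 : (L : ℤ) + 1 = 1 + 1 * L := by ring
    have e2 : (L : ℤ) - 1 = -1 + 1 * L := by ring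
    have e3 : Gam L G (L : ℤ) = Gam L G (0 + 1 * L) := by congr 1; ring
    rw [e1, e2, e3, a1, a2, a3]
    simp only [Nat.cast_zero, zero_add, zero_sub]
    ring
  have : ((∑ i ∈ Finset.range L,
      (Finset.Ioc (Gam L G ((i : ℤ) - 1)) (Gam L G ((i : ℤ) + 2) + 1)).card : ℕ) : ℤ)
      ≤ ((4 * L : ℕ) : ℤ) := by rw [key]; push_cast; exact le_rfl
  exact_mod_cast this

theorem not_mem_badSet {N M : ℕ} (hN : 1 ≤ N) (hM : 1 ≤ M) (G : CircleDeg1Lift)
    {a b : ZMod M} (h : (a, b) ∉ badSet N M G) {i m : ℤ} (hi : (i : ZMod M) = a)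
    (hm : (m : ZMod M) = b) (h1 : Gam (N * M) G (i - 1) < m) :
    Gam (N * M) G (i + 2) + 1 < m := by
  classical
  have hL : 1 ≤ N * M := Nat.mul_pos hN hM
  by_contra h2
  push Not at h2
  apply h
  unfold badSet
  set L := N * M with hLdef
  have hL' : (0 : ℤ) < L := by exact_mod_cast hL
  obtain ⟨i0, hi0⟩ : ∃ i0 : ℕ, (i0 : ℤ) = i % L :=
    ⟨(i % L).toNat, Int.toNat_of_nonneg (Int.emod_nonneg _ hL'.ne')⟩
  have hlt : i0 < L := by
    have := Int.emod_lt_of_pos i hL'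
    omega
  have hdec : i = i0 + (i / L) * L := by
    rw [hi0]; have := Int.emod_add_mul_ediv i L; linarith
  have hz : ((L : ℕ) : ZMod M) = 0 := by rw [hLdef]; simp
  have g1 : Gam L G (i - 1) = Gam L G ((i0 : ℤ) - 1) + (i / L) * L := by
    rw [← Gam_add hL]; congr 1; linarith
  have g2 : Gam L G (i + 2) = Gam L G ((i0 : ℤ) + 2) + (i / L) * L := by
    rw [← Gam_add hL]; congr 1; linarith
  refine Finset.mem_image.2 ⟨⟨i0, m - (i / L) * L⟩, ?_, ?_⟩
  · simp only [Finset.mem_sigma, Finset.mem_range, Finset.mem_Ioc]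
    exact ⟨hlt, by linarith, by linarith⟩
  · simp only [Prod.mk.injEq]
    constructor
    · rw [← hi]
      conv_rhs => rw [hdec]
      push_cast
      rw [hz]; simp
    · rw [← hm]
      push_cast
      rw [hz]; simp

theorem trap_step {N M : ℕ} (hN : 1 ≤ N) (hM : 1 ≤ M) (G : CircleDeg1Lift) (F : ℝ → ℝ)
    {a b : ZMod M} (h : (a, b) ∉ badSet N M G)
    (hF : ∀ x, |F x - phi N M a.val b.val (G x)| ≤ 1 / (N * M)) (i : ℤ) (hi : (i : ZMod M) = a) :
    ∃ j : ℤ, (j : ZMod M) = a ∧ ∀ x : ℝ, (i : ℝ) - 1 ≤ N * M * x → N * M * x ≤ i + 2 →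
      (j : ℝ) - 1 ≤ N * M * F x ∧ N * M * F x ≤ j + 2 := by
  have : NeZero M := ⟨by omega⟩
  have hN' : (1 : ℝ) ≤ N := by exact_mod_cast hN
  have hM' : (1 : ℝ) ≤ M := by exact_mod_cast hM
  have hMz : (0 : ℤ) < M := by exact_mod_cast hM
  have hL : (0 : ℝ) < N * M := by positivity
  set u := Gam (N * M) G (i - 1) with hu
  set k := (u - b.val) / M with hk
  have k1 : (b.val : ℤ) + k * M ≤ u := by
    have := Int.ediv_mul_le (u - b.val) hMz.ne'
    linarith
  have k2 : u < (b.val : ℤ) + k * M + M := by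
    have := Int.lt_ediv_add_one_mul_self (u - b.val) hMz
    linarith
  have k3 := not_mem_badSet hN hM G h hi (m := (b.val : ℤ) + k * M + M) (by simp) k2
  refine ⟨a.val + k * M, by simp, fun x hx1 hx2 => ?_⟩
  have c1 : (u : ℝ) ≤ N * M * G x := by
    have e1 : (u : ℝ) ≤ ((N * M : ℕ) : ℝ) * G (((i - 1 : ℤ) : ℝ) / ((N * M : ℕ) : ℝ)) :=
      Int.floor_le _
    have e2 : G (((i - 1 : ℤ) : ℝ) / ((N * M : ℕ) : ℝ)) ≤ G x := by
      apply G.mono
      push_cast
      rw [div_le_iff₀ hL]; linarith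
    push_cast at e1 e2
    nlinarith
  have c2 : N * M * G x < (Gam (N * M) G (i + 2) : ℝ) + 1 := by
    have e1 : ((N * M : ℕ) : ℝ) * G (((i + 2 : ℤ) : ℝ) / ((N * M : ℕ) : ℝ)) <
        (Gam (N * M) G (i + 2) : ℝ) + 1 := Int.lt_floor_add_one _
    have e2 : G x ≤ G (((i + 2 : ℤ) : ℝ) / ((N * M : ℕ) : ℝ)) := by
      apply G.mono
      push_cast
      rw [le_div_iff₀ hL]; linarith
    push_cast at e1 e2
    nlinarith
  have k1' : ((b.val : ℕ) : ℝ) + k * M ≤ u := by exact_mod_cast k1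
  have k3' : (Gam (N * M) G (i + 2) : ℝ) + 1 + 1 ≤ ((b.val : ℕ) : ℝ) + k * M + M := by
    exact_mod_cast k3
  have p := phi_flat (a := a.val) (b := b.val) hN hM (x := G x) (k := k) (by linarith) (by linarith)
  have q := abs_le.1 (hF x)
  have q1 : N * M * F x - N * M * phi N M a.val b.val (G x) ≤ 1 := by
    have := mul_le_mul_of_nonneg_left q.2 hL.le
    rw [mul_one_div_cancel hL.ne'] at this
    linarith
  have q2 : -1 ≤ N * M * F x - N * M * phi N M a.val b.val (G x) := by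
    have := mul_le_mul_of_nonneg_left q.1 hL.le
    rw [mul_neg, mul_one_div_cancel hL.ne'] at this
    linarith
  push_cast
  constructor <;> linarith [p.1, p.2]

theorem trap {N M : ℕ} (hN : 1 ≤ N) (hM : 1 ≤ M) (G F : CircleDeg1Lift) (hc : Continuous F)
    {a b : ZMod M} (h : (a, b) ∉ badSet N M G)
    (hF : ∀ x, |F x - phi N M a.val b.val (G x)| ≤ 1 / (N * M)) :
    ∃ q : ℕ, 0 < q ∧ ∃ (p : ℤ) (x : ℝ), F^[q] x = x + p := by
  have : NeZero M := ⟨by omega⟩
  have hL1 : 1 ≤ N * M := Nat.mul_pos hN hM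
  have : NeZero (N * M) := ⟨by omega⟩
  have hN' : (1 : ℝ) ≤ N := by exact_mod_cast hN
  have hM' : (1 : ℝ) ≤ M := by exact_mod_cast hM
  have hL : (0 : ℝ) < N * M := by positivity
  have hs := trap_step hN hM G F h hF
  choose κ hκ1 hκ2 using hs
  let step : {i : ℤ // (i : ZMod M) = a} → {i : ℤ // (i : ZMod M) = a} :=
    fun i => ⟨κ i.1 i.2, hκ1 i.1 i.2⟩
  have hit : ∀ (q : ℕ) (i : {i : ℤ // (i : ZMod M) = a}) (x : ℝ),
      (i.1 : ℝ) - 1 ≤ N * M * x → N * M * x ≤ i.1 + 2 →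
      (((step^[q] i).1 : ℤ) : ℝ) - 1 ≤ N * M * F^[q] x ∧
        N * M * F^[q] x ≤ ((step^[q] i).1 : ℤ) + 2 := by
    intro q
    induction q with
    | zero => intro i x h1 h2; exact ⟨h1, h2⟩
    | succ q ih =>
      intro i x h1 h2
      rw [Function.iterate_succ_apply', Function.iterate_succ_apply']
      obtain ⟨e1, e2⟩ := ih i x h1 h2
      exact hκ2 _ _ _ e1 e2
  let i0 : {i : ℤ // (i : ZMod M) = a} := ⟨a.val, by simp⟩
  obtain ⟨r, s, hrs, he⟩ : ∃ r s : ℕ, r < s ∧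
      (((step^[r] i0).1 : ℤ) : ZMod (N * M)) = (((step^[s] i0).1 : ℤ) : ZMod (N * M)) := by
    obtain ⟨r, s, hne, he⟩ := Finite.exists_ne_map_eq_of_infinite
      (fun r : ℕ => (((step^[r] i0).1 : ℤ) : ZMod (N * M)))
    rcases lt_or_gt_of_ne hne with h' | h'
    · exact ⟨r, s, h', he⟩
    · exact ⟨s, r, h', he.symm⟩
  obtain ⟨p, hp⟩ := (ZMod.intCast_eq_intCast_iff_dvd_sub _ _ _).1 he
  obtain ⟨q, rfl⟩ : ∃ q, s = q + r := ⟨s - r, by omega⟩
  rw [Function.iterate_add_apply] at hp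
  set i := step^[r] i0
  have hp' : (((step^[q] i).1 : ℤ) : ℝ) = i.1 + N * M * p := by
    have : (step^[q] i).1 = i.1 + ((N * M : ℕ) : ℤ) * p := by linarith
    rw [this]; push_cast; ring
  refine ⟨q, by omega, p, ?_⟩
  have l1 := hit q i (((i.1 : ℝ) - 1) / (N * M)) (by rw [mul_div_cancel₀ _ hL.ne'])
    (by rw [mul_div_cancel₀ _ hL.ne']; linarith)
  have l2 := hit q i (((i.1 : ℝ) + 2) / (N * M)) (by rw [mul_div_cancel₀ _ hL.ne']; linarith)
    (by rw [mul_div_cancel₀ _ hL.ne'])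
  rw [hp'] at l1 l2
  have m1 : ((i.1 : ℝ) - 1) / (N * M) + p ≤ (F ^ q) (((i.1 : ℝ) - 1) / (N * M)) := by
    rw [CircleDeg1Lift.coe_pow]
    have := l1.1
    rw [div_add' _ _ _ hL.ne', div_le_iff₀ hL]; linarith
  have m2 : (F ^ q) (((i.1 : ℝ) + 2) / (N * M)) ≤ ((i.1 : ℝ) + 2) / (N * M) + p := by
    rw [CircleDeg1Lift.coe_pow]
    have := l2.2
    rw [div_add' _ _ _ hL.ne', le_div_iff₀ hL]; linarith
  have t1 := (F ^ q).le_translationNumber_of_add_int_le m1
  have t2 := (F ^ q).translationNumber_le_of_le_add_int m2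
  obtain ⟨x, hx⟩ := ((F ^ q).translationNumber_eq_int_iff (F.continuous_pow hc q)).1
    (le_antisymm t2 t1)
  exact ⟨x, by rw [← CircleDeg1Lift.coe_pow]; exact hx⟩

end Pool.Agent.P.MP_e0518f_lc
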