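import Mathlib
import Pool.Agent.P.MP_e0518f_lc.Trap

set_option autoImplicit false

namespace Pool.Agent.P.MP_e0518f_lc

open Filter Topology

/-- number of stairs at stage `n` -/
def NN : ℕ → ℕ
  | 0 => 1
  | n + 1 => 4 * NN n * ((n + 1) * NN n)

/-- number of sub-steps at stage `n` -/
def MM (n : ℕ) : ℕ := (n + 1) * NN n

theorem NN_succ (n : ℕ) : NN (n + 1) = 4 * NN n * MM n := rfl

theorem one_le_NN (n : ℕ) : 1 ≤ NN n := by
  induction n with
  | zero => exact le_rfl
  | succ n ih => exact Nat.mul_pos (Nat.mul_pos (by norm_num) ih) (Nat.mul_pos (by omega) ih)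

theorem one_le_MM (n : ℕ) : 1 ≤ MM n := Nat.mul_pos (by omega) (one_le_NN n)

instance (n : ℕ) : NeZero (MM n) := ⟨by have := one_le_MM n; omega⟩

theorem NN_pos (n : ℕ) : (0 : ℝ) < NN n := by exact_mod_cast one_le_NN n

theorem MM_ge (n : ℕ) : (1 : ℝ) ≤ MM n := by exact_mod_cast one_le_MM n

theorem pow_le_NN (n : ℕ) : (4 : ℝ) ^ n ≤ NN n := by
  induction n with
  | zero => simp [NN]
  | succ n ih =>
    rw [NN_succ, pow_succ]
    push_cast
    have := MM_ge n
    have := NN_pos n
    nlinarith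

theorem tendsto_four : Tendsto (fun n : ℕ => (4 : ℝ) / 4 ^ n) atTop (𝓝 0) :=
  tendsto_const_nhds.div_atTop (tendsto_pow_atTop_atTop_of_one_lt (by norm_num))

theorem tendsto_eight : Tendsto (fun n : ℕ => (8 : ℝ) / 4 ^ n) atTop (𝓝 0) :=
  tendsto_const_nhds.div_atTop (tendsto_pow_atTop_atTop_of_one_lt (by norm_num))

theorem four_div_le (n : ℕ) : (4 : ℝ) / NN n ≤ 4 / 4 ^ n := by
  have := pow_le_NN n
  gcongr

theorem tendsto_rho : Tendsto (fun n : ℕ => (4 : ℝ) / NN n) atTop (𝓝 0) :=
  squeeze_zero (fun n => by have := NN_pos n; positivity) four_div_le tendsto_four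

/-- the space of random choices -/
abbrev Om : Type := ∀ n : ℕ, ZMod (MM n) × ZMod (MM n)

/-- the random step at stage `n` -/
noncomputable def ph (ω : Om) (n : ℕ) : ℝ → ℝ := phi (NN n) (MM n) (ω n).1.val (ω n).2.val

/-- finite compositions -/
noncomputable def fn (ω : Om) : ℕ → ℝ → ℝ
  | 0 => id
  | n + 1 => ph ω n ∘ fn ω n

theorem fn_succ (ω : Om) (n : ℕ) (x : ℝ) : fn ω (n + 1) x = ph ω n (fn ω n x) := rfl

theorem fn_add_one (ω : Om) (n : ℕ) (x : ℝ) : fn ω n (x + 1) = fn ω n x + 1 := by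
  induction n with
  | zero => rfl
  | succ n ih => rw [fn_succ, fn_succ, ih]; exact phi_add_one (one_le_NN n) (one_le_MM n) _

theorem fn_slope (ω : Om) (n : ℕ) {x y : ℝ} (h : x ≤ y) :
    4 ^ n * (y - x) / NN n ≤ fn ω n y - fn ω n x := by
  induction n with
  | zero => simp [NN, fn]
  | succ n ih =>
    have hN := NN_pos n
    have hM := MM_ge n
    have h0 : 0 ≤ 4 ^ n * (y - x) / NN n := by
      have : 0 ≤ y - x := by linarith
      positivity
    have h1 := phi_slope (N := NN n) (M := MM n) (a := (ω n).1.val) (b := (ω n).2.val)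
      (one_le_NN n) (one_le_MM n) (x := fn ω n x) (y := fn ω n y) (by linarith)
    rw [fn_succ, fn_succ]
    refine le_trans ?_ h1
    rw [NN_succ]
    push_cast
    have : (4 : ℝ) ^ (n + 1) * (y - x) / (4 * NN n * MM n) = 4 ^ n * (y - x) / NN n / MM n := by
      field_simp; ring
    rw [this]
    gcongr

theorem fn_mono (ω : Om) (n : ℕ) : Monotone (fn ω n) := by
  intro x y h
  have h1 := fn_slope ω n h
  have hN := NN_pos n
  have h0 : 0 ≤ 4 ^ n * (y - x) / NN n := by
    have : 0 ≤ y - x := by linarith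
    positivity
  linarith

theorem fn_continuous (ω : Om) (n : ℕ) : Continuous (fn ω n) := by
  induction n with
  | zero => exact continuous_id
  | succ n ih => exact (phi_continuous (one_le_MM n)).comp ih

theorem fn_dist (ω : Om) (x : ℝ) {n m : ℕ} (h : n ≤ m) :
    |fn ω m x - fn ω n x| ≤ 4 / NN n - 4 / NN m := by
  induction m, h using Nat.le_induction with
  | base => simp
  | succ m _ ih =>
    have h1 : |fn ω (m + 1) x - fn ω m x| ≤ 2 / NN m :=
      phi_dist (one_le_NN m) (one_le_MM m) (ZMod.val_lt _).le (ZMod.val_lt _).le _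
    have h2 : (4 : ℝ) / NN (m + 1) ≤ 2 / NN m := by
      have hN := NN_pos m
      have hM := MM_ge m
      rw [NN_succ]
      push_cast
      rw [div_le_div_iff₀ (by positivity) hN]
      nlinarith
    have h3 : (4 : ℝ) / NN m = 2 / NN m + 2 / NN m := by ring
    have h4 := abs_sub_le (fn ω (m + 1) x) (fn ω m x) (fn ω n x)
    linarith

theorem fn_congr {ω ω' : Om} {n : ℕ} (h : ∀ i < n, ω i = ω' i) : fn ω n = fn ω' n := by
  induction n with
  | zero => rfl
  | succ n ih =>
    have : ph ω n = ph ω' n := by unfold ph; rw [h n (by omega)]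
    simp only [fn, this, ih (fun i hi => h i (by omega))]

theorem exists_lim (ω : Om) (x : ℝ) : ∃ y, Tendsto (fun n => fn ω n x) atTop (𝓝 y) := by
  apply cauchySeq_tendsto_of_complete
  refine cauchySeq_of_le_tendsto_0' _ (fun n m h => ?_) tendsto_rho
  rw [dist_comm, Real.dist_eq]
  have := fn_dist ω x h
  have h2 : (0 : ℝ) ≤ 4 / NN m := by have := NN_pos m; positivity
  linarith

/-- the random homeomorphism, on the line -/
noncomputable def fl (ω : Om) (x : ℝ) : ℝ := (exists_lim ω x).choose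

theorem tendsto_fl (ω : Om) (x : ℝ) : Tendsto (fun n => fn ω n x) atTop (𝓝 (fl ω x)) :=
  (exists_lim ω x).choose_spec

theorem fl_dist (ω : Om) (n : ℕ) (x : ℝ) : |fl ω x - fn ω n x| ≤ 4 / NN n := by
  have h1 : Tendsto (fun m => |fn ω m x - fn ω n x|) atTop (𝓝 |fl ω x - fn ω n x|) :=
    ((tendsto_fl ω x).sub_const _).abs
  refine le_of_tendsto h1 (eventually_atTop.2 ⟨n, fun m hm => ?_⟩)
  have := fn_dist ω x hm
  have h2 : (0 : ℝ) ≤ 4 / NN m := by have := NN_pos m; positivity
  linarith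

theorem fl_add_one (ω : Om) (x : ℝ) : fl ω (x + 1) = fl ω x + 1 := by
  refine tendsto_nhds_unique (tendsto_fl ω (x + 1)) ?_
  simp only [fn_add_one]
  exact (tendsto_fl ω x).add_const 1

theorem fl_mono (ω : Om) : Monotone (fl ω) := fun _ _ h =>
  le_of_tendsto_of_tendsto' (tendsto_fl ω _) (tendsto_fl ω _) fun n => fn_mono ω n h

theorem fl_continuous (ω : Om) : Continuous (fl ω) := by
  have : TendstoUniformly (fun n => fn ω n) (fl ω) atTop := by
    rw [Metric.tendstoUniformly_iff]
    intro ε hε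
    filter_upwards [tendsto_rho.eventually (gt_mem_nhds hε)] with n hn x
    rw [Real.dist_eq]
    exact (fl_dist ω n x).trans_lt hn
  exact this.continuous (Eventually.of_forall fun n => fn_continuous ω n).frequently

theorem close_of_eq {ω ω' : Om} {n : ℕ} (h : ∀ i < n, ω i = ω' i) {x y : ℝ}
    (e : fl ω x = fl ω' y) : |x - y| ≤ 8 / 4 ^ n := by
  have h1 := abs_le.1 (fl_dist ω n x)
  have h2 := abs_le.1 (fl_dist ω' n y)
  rw [← fn_congr h] at h2
  have hN := NN_pos n
  have key : ∀ u v : ℝ, u ≤ v → fn ω n v - fn ω n u ≤ 8 / NN n → v - u ≤ 8 / 4 ^ n := by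
    intro u v huv hh
    have := (fn_slope ω n huv).trans hh
    rw [div_le_div_iff_of_pos_right hN] at this
    rw [le_div_iff₀ (by positivity)]
    linarith
  have e8 : (8 : ℝ) / NN n = 4 / NN n + 4 / NN n := by ring
  rcases le_total x y with hxy | hxy
  · rw [abs_sub_comm, abs_of_nonneg (by linarith)]
    exact key x y hxy (by linarith [h1.1, h1.2, h2.1, h2.2])
  · rw [abs_of_nonneg (by linarith)]
    exact key y x hxy (by linarith [h1.1, h1.2, h2.1, h2.2])

theorem fl_injective (ω : Om) : Function.Injective (fl ω) := by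
  intro x y e
  have : |x - y| ≤ 0 := ge_of_tendsto' tendsto_eight fun n => close_of_eq (fun _ _ => rfl) e
  exact sub_eq_zero.1 (abs_nonpos_iff.1 this)

theorem fl_close {ω ω' : Om} {n : ℕ} (h : ∀ i < n, ω i = ω' i) (x : ℝ) :
    |fl ω x - fl ω' x| ≤ 8 / 4 ^ n := by
  have h1 := abs_le.1 (fl_dist ω n x)
  have h2 := abs_le.1 (fl_dist ω' n x)
  rw [← fn_congr h] at h2
  have h3 := four_div_le n
  have e8 : (8 : ℝ) / 4 ^ n = 4 / 4 ^ n + 4 / 4 ^ n := by ring
  rw [abs_le]
  constructor <;> linarith [h1.1, h1.2, h2.1, h2.2]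

/-- finite compositions as degree one lifts -/
noncomputable def fnL (ω : Om) (n : ℕ) : CircleDeg1Lift :=
  ⟨⟨fn ω n, fn_mono ω n⟩, fn_add_one ω n⟩

/-- the limit as a degree one lift -/
noncomputable def flL (ω : Om) : CircleDeg1Lift := ⟨⟨fl ω, fl_mono ω⟩, fl_add_one ω⟩

theorem flL_isUnit (ω : Om) : IsUnit (flL ω) :=
  CircleDeg1Lift.isUnit_iff_bijective.2
    ⟨fl_injective ω, (flL ω).continuous_iff_surjective.1 (fl_continuous ω)⟩

/-- the limit as an invertible lift -/
noncomputable def flU (ω : Om) : CircleDeg1Liftˣ := (flL_isUnit ω).unit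

theorem flU_val (ω : Om) : (flU ω : CircleDeg1Lift) = flL ω := rfl

theorem periodic_of_good (ω : Om) (n : ℕ) (G : CircleDeg1Lift) (hG : Continuous G)
    (h : ω n ∉ badSet (NN n) (MM n) (fnL ω n * G : CircleDeg1Lift)) :
    ∃ q : ℕ, 0 < q ∧ ∃ (p : ℤ) (x : ℝ), (flL ω * G : CircleDeg1Lift)^[q] x = x + p := by
  refine trap (one_le_NN n) (one_le_MM n) (fnL ω n * G) (flL ω * G)
    ((fl_continuous ω).comp hG) (a := (ω n).1) (b := (ω n).2) h fun x => ?_
  have h1 := fl_dist ω (n + 1) (G x)
  have e : (4 : ℝ) / NN (n + 1) = 1 / (NN n * MM n) := by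
    have hN := NN_pos n
    have hM := MM_ge n
    rw [NN_succ]; push_cast; field_simp
  rw [e] at h1
  exact h1

open MeasureTheory

/-- uniform probability on the space of choices -/
noncomputable def PP : Measure Om := Measure.addHaarMeasure ⊤

instance : IsProbabilityMeasure PP := ⟨by
  have := Measure.addHaarMeasure_self (K₀ := (⊤ : TopologicalSpace.PositiveCompacts Om))
  simpa [PP] using this⟩

instance : PP.IsAddLeftInvariant := by unfold PP; infer_instance

theorem isOpen_of_depends {B : Set Om} {n : ℕ}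
    (h : ∀ ω ω' : Om, (∀ i < n, ω i = ω' i) → ω ∈ B → ω' ∈ B) : IsOpen B := by
  rw [isOpen_iff_mem_nhds]
  intro ω hω
  have : {ω' : Om | ∀ i ∈ Finset.range n, ω' i = ω i} ∈ 𝓝 ω := by
    refine (Filter.eventually_all_finset (Finset.range n)).2 fun i _ => ?_
    have ho : IsOpen ((fun ω' : Om => ω' i) ⁻¹' {ω i}) :=
      (isOpen_discrete {ω i}).preimage (continuous_apply i)
    exact ho.mem_nhds (Set.mem_preimage.2 (Set.mem_singleton _))
  exact Filter.mem_of_superset this fun ω' h' =>
    h ω ω' (fun i hi => (h' i (Finset.mem_range.2 hi)).symm) hω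

theorem measure_bad (n : ℕ) (G : CircleDeg1Lift) :
    PP {ω | ω n ∈ badSet (NN n) (MM n) (fnL ω n * G : CircleDeg1Lift)} ≤
      ENNReal.ofReal (4 / (n + 1)) := by
  classical
  set B : Set Om := {ω | ω n ∈ badSet (NN n) (MM n) (fnL ω n * G : CircleDeg1Lift)} with hB
  have hfnL : ∀ ω ω' : Om, (∀ i < n, ω i = ω' i) → fnL ω n = fnL ω' n := by
    intro ω ω' h
    ext x
    exact congrFun (fn_congr h) x
  have hBo : IsOpen B := by
    refine isOpen_of_depends (n := n + 1) fun ω ω' h hω => ?_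
    simp only [hB, Set.mem_ofPred_eq] at hω ⊢
    rwa [← h n (by omega), ← hfnL ω ω' (fun i hi => h i (by omega))]
  have hBm : MeasurableSet B := hBo.measurableSet
  let T : (ZMod (MM n) × ZMod (MM n)) → Om → Om := fun c ω => Pi.single n c + ω
  have hT : ∀ c, MeasurableSet (T c ⁻¹' B) := fun c => (measurable_const_add _) hBm
  have h1 : ∀ c, PP (T c ⁻¹' B) = PP B := fun c => measure_preimage_add PP _ B
  have h2 : ∑ c, PP (T c ⁻¹' B) = ∫⁻ ω, ∑ c, (T c ⁻¹' B).indicator 1 ω ∂PP := by
    rw [lintegral_finsetSum _ fun c _ => measurable_one.indicator (hT c)]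
    exact Finset.sum_congr rfl fun c _ => (lintegral_indicator_one (hT c)).symm
  have h3 : ∀ ω, ∑ c, (T c ⁻¹' B).indicator (1 : Om → ENNReal) ω ≤ ((4 * (NN n * MM n) : ℕ) : ENNReal) := by
    intro ω
    have e : ∀ c, (T c ⁻¹' B).indicator (1 : Om → ENNReal) ω =
        if c + ω n ∈ badSet (NN n) (MM n) (fnL ω n * G : CircleDeg1Lift) then 1 else 0 := by
      intro c
      have e1 : fnL (T c ω) n = fnL ω n := hfnL _ _ fun i hi => by
        simp [T, Pi.single_eq_of_ne hi.ne]
      have e2 : T c ω n = c + ω n := by simp [T]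
      simp only [Set.indicator, Set.mem_preimage, hB, Set.mem_ofPred_eq, e1, e2, Pi.one_apply]
    simp only [e]
    rw [Finset.sum_boole]
    have : (Finset.univ.filter fun c => c + ω n ∈ badSet (NN n) (MM n)
        (fnL ω n * G : CircleDeg1Lift)).card ≤ 4 * (NN n * MM n) := by
      refine le_trans ?_ (card_badSet (one_le_NN n) (one_le_MM n) (fnL ω n * G))
      refine Finset.card_le_card_of_injOn (fun c => c + ω n) (fun c hc => ?_)
        (fun c _ d _ h => add_right_cancel h)
      exact (Finset.mem_filter.1 hc).2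
    exact_mod_cast this
  have h4 : ((MM n * MM n : ℕ) : ENNReal) * PP B ≤ ((4 * (NN n * MM n) : ℕ) : ENNReal) := by
    have := (lintegral_mono h3).trans_eq (lintegral_const (μ := PP) _)
    rw [← h2, measure_univ, mul_one] at this
    simp only [h1, Finset.sum_const, Finset.card_univ, Fintype.card_prod, ZMod.card,
      nsmul_eq_mul] at this
    exact this
  have hfin : PP B ≠ ⊤ := measure_ne_top _ _
  rw [← ENNReal.ofReal_toReal hfin]
  apply ENNReal.ofReal_le_ofReal
  have h5 := ENNReal.toReal_mono (ENNReal.natCast_ne_top _) h4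
  rw [ENNReal.toReal_mul, ENNReal.toReal_natCast, ENNReal.toReal_natCast] at h5
  have hN := NN_pos n
  have hMe : (MM n : ℝ) = (n + 1) * NN n := by unfold MM; push_cast; ring
  have hM := MM_ge n
  push_cast at h5
  rw [le_div_iff₀ (by positivity)]
  have h6 : (MM n : ℝ) * NN n * ((PP B).toReal * (n + 1)) ≤ (MM n : ℝ) * NN n * 4 := by
    calc (MM n : ℝ) * NN n * ((PP B).toReal * (n + 1))
        = MM n * ((n + 1) * NN n) * (PP B).toReal := by ring
      _ = MM n * MM n * (PP B).toReal := by rw [← hMe]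
      _ ≤ _ := by linarith
  exact le_of_mul_le_mul_left h6 (by positivity)

theorem measure_aperiodic (G : CircleDeg1Lift) (hG : Continuous G) :
    PP {ω | ¬ ∃ q : ℕ, 0 < q ∧ ∃ (p : ℤ) (x : ℝ),
      (flL ω * G : CircleDeg1Lift)^[q] x = x + p} = 0 := by
  have h1 : Tendsto (fun n : ℕ => ENNReal.ofReal (4 / (n + 1))) atTop (𝓝 0) := by
    rw [← ENNReal.ofReal_zero]
    apply ENNReal.tendsto_ofReal
    exact tendsto_const_nhds.div_atTop (tendsto_atTop_add_const_right _ _ tendsto_natCast_atTop_atTop)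
  refine le_antisymm (ge_of_tendsto' h1 fun n => le_trans (measure_mono fun ω hω => ?_)
    (measure_bad n G)) bot_le
  by_contra h
  exact hω (periodic_of_good ω n G hG h)

end Pool.Agent.P.MP_e0518f_lc
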