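import Mathlib
import Pool.Agent.P.MP_e0518f_lc.Defs
import Pool.Agent.P.MP_e0518f_lc.Rand

set_option autoImplicit false

namespace Pool.Agent.P.MP_e0518f_lc

open Filter Topology MeasureTheory

attribute [local instance] homeoTop

theorem coe_eq_iff {x y : ℝ} : (x : UnitAddCircle) = (y : UnitAddCircle) ↔ ∃ k : ℤ, y = x + k := by
  rw [eq_comm, ← sub_eq_zero, ← AddCircle.coe_sub, AddCircle.coe_eq_zero_iff]
  constructor
  · rintro ⟨k, hk⟩
    exact ⟨k, by simp at hk; linarith⟩
  · rintro ⟨k, hk⟩
    exact ⟨k, by simp [hk]⟩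

/-- the circle map induced by a degree one lift -/
noncomputable def circ (F : CircleDeg1Lift) : UnitAddCircle → UnitAddCircle := fun x =>
  Quotient.liftOn' x (fun r : ℝ => ((F r : ℝ) : UnitAddCircle)) fun a b h => by
    have h' : (a : UnitAddCircle) = (b : UnitAddCircle) := Quotient.sound' h
    obtain ⟨k, rfl⟩ := coe_eq_iff.1 h'
    exact coe_eq_iff.2 ⟨k, F.map_add_int a k⟩

theorem circ_coe (F : CircleDeg1Lift) (x : ℝ) :
    circ F (x : UnitAddCircle) = ((F x : ℝ) : UnitAddCircle) := rfl

theorem circ_continuous (F : CircleDeg1Lift) (hF : Continuous F) : Continuous (circ F) :=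
  Continuous.quotient_liftOn' ((AddCircle.continuous_mk' 1).comp hF) _

theorem unit_continuous (F : CircleDeg1Liftˣ) : Continuous (F : CircleDeg1Lift) :=
  (CircleDeg1Lift.toOrderIso F).continuous

/-- the circle homeomorphism induced by an invertible lift -/
noncomputable def homeo (F : CircleDeg1Liftˣ) : UnitAddCircle ≃ₜ UnitAddCircle where
  toFun := circ (F : CircleDeg1Lift)
  invFun := circ ((F⁻¹ : CircleDeg1Liftˣ) : CircleDeg1Lift)
  left_inv x := by
    induction x using QuotientAddGroup.induction_on with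
    | H r => exact congrArg _ (CircleDeg1Lift.units_inv_apply_apply F r)
  right_inv x := by
    induction x using QuotientAddGroup.induction_on with
    | H r => exact congrArg _ (CircleDeg1Lift.units_apply_inv_apply F r)
  continuous_toFun := circ_continuous _ (unit_continuous F)
  continuous_invFun := circ_continuous _ (unit_continuous F⁻¹)

/-- the random homeomorphism of the circle -/
noncomputable def Phi (ω : Om) : HomeoPlus := ⟨homeo (flU ω), flU ω, fun _ => rfl⟩

theorem dist_coe_le (x y : ℝ) : dist (x : UnitAddCircle) (y : UnitAddCircle) ≤ |x - y| := by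
  rw [dist_eq_norm, ← AddCircle.coe_sub, ← Real.norm_eq_abs]
  exact QuotientAddGroup.norm_mk_le_norm

theorem continuous_of_cyl {X : Type} [PseudoMetricSpace X] (u : Om → X)
    (h : ∀ (n : ℕ) (ω ω' : Om), (∀ i < n, ω i = ω' i) → dist (u ω') (u ω) ≤ 8 / 4 ^ n) :
    Continuous u := by
  rw [Metric.continuous_iff']
  intro ω ε hε
  obtain ⟨n, hn⟩ := (tendsto_eight.eventually (gt_mem_nhds hε)).exists
  have ho : IsOpen {ω' : Om | ∀ i < n, ω i = ω' i} :=
    isOpen_of_depends (n := n) fun a b hab ha i hi => (ha i hi).trans (hab i hi)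
  filter_upwards [ho.mem_nhds (fun _ _ => rfl)] with ω' h'
  exact (h n ω ω' h').trans_lt hn

theorem Phi_continuous : Continuous Phi := by
  refine continuous_induced_rng.2 (Continuous.prodMk ?_ ?_)
  · refine continuous_of_cyl _ fun n ω ω' h => ?_
    rw [ContinuousMap.dist_le (by positivity)]
    intro x
    induction x using QuotientAddGroup.induction_on with
    | H r => exact (dist_coe_le (fl ω' r) (fl ω r)).trans (fl_close (fun i hi => (h i hi).symm) r)
  · refine continuous_of_cyl _ fun n ω ω' h => ?_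
    rw [ContinuousMap.dist_le (by positivity)]
    intro x
    induction x using QuotientAddGroup.induction_on with
    | H r =>
      refine (dist_coe_le (((flU ω')⁻¹ : CircleDeg1Liftˣ) r) (((flU ω)⁻¹ : CircleDeg1Liftˣ) r)).trans
        (close_of_eq (fun i hi => (h i hi).symm) ?_)
      exact (CircleDeg1Lift.units_apply_inv_apply (flU ω') r).trans
        (CircleDeg1Lift.units_apply_inv_apply (flU ω) r).symm

/-- underlying continuous map -/
def toC (f : HomeoPlus) : C(UnitAddCircle, UnitAddCircle) := (f.1 : C(UnitAddCircle, UnitAddCircle))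

theorem toC_continuous : Continuous toC :=
  continuous_fst.comp (continuous_induced_dom (f := fun f : HomeoPlus =>
    ((f.1 : C(UnitAddCircle, UnitAddCircle)), (f.1.symm : C(UnitAddCircle, UnitAddCircle)))))

theorem toC_mul (f g : HomeoPlus) : toC (f * g) = (toC f).comp (toC g) := rfl

theorem toC_pow_continuous (k : HomeoPlus) (q : ℕ) :
    Continuous fun f : HomeoPlus => toC ((f * k) ^ q) := by
  induction q with
  | zero => simpa using continuous_const
  | succ q ih =>
    simp only [pow_succ, toC_mul]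
    exact ih.compCM (toC_continuous.compCM continuous_const)

/-- maps `f` such that `f * k` has no periodic point -/
def Aper (k : HomeoPlus) : Set HomeoPlus :=
  {f | ∀ q : ℕ, 0 < q → ∀ x, toC ((f * k) ^ q) x ≠ x}

theorem Aper_measurable (k : HomeoPlus) : @MeasurableSet _ (borel HomeoPlus) (Aper k) := by
  let _ : MeasurableSpace HomeoPlus := borel HomeoPlus
  have : BorelSpace HomeoPlus := ⟨rfl⟩
  have hc : IsClosed {u : C(UnitAddCircle, UnitAddCircle) | ∃ x, u x = x} := by
    have h1 : IsClosed {p : C(UnitAddCircle, UnitAddCircle) × UnitAddCircle | p.1 p.2 = p.2} :=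
      isClosed_eq (by fun_prop) continuous_snd
    have h2 := isClosedMap_fst_of_compactSpace _ h1
    convert h2 using 1
    ext u
    simp
  have : Aper k = ⋂ q : ℕ, ⋂ _ : 0 < q,
      ((fun f : HomeoPlus => toC ((f * k) ^ q)) ⁻¹' {u | ∃ x, u x = x})ᶜ := by
    ext f
    simp [Aper]
  rw [this]
  exact MeasurableSet.iInter fun q => MeasurableSet.iInter fun _ =>
    (hc.preimage (toC_pow_continuous k q)).measurableSet.compl

theorem lift_pow {F : ℝ → ℝ} {f : HomeoPlus} (h : IsLift F f.1) (q : ℕ) (x : ℝ) :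
    toC (f ^ q) (x : UnitAddCircle) = ((F^[q] x : ℝ) : UnitAddCircle) := by
  induction q generalizing x with
  | zero => rfl
  | succ q ih =>
    rw [pow_succ, toC_mul, Function.iterate_succ_apply, ← ih]
    exact congrArg _ (h x)

theorem subset_Aper : irrationalRotation ⊆ Aper 1 := by
  rintro f ⟨F, hF, hirr⟩ q hq x hx
  induction x using QuotientAddGroup.induction_on with
  | H r =>
    rw [mul_one, lift_pow hF, eq_comm] at hx
    obtain ⟨p, hp⟩ := coe_eq_iff.1 hx
    rw [← CircleDeg1Lift.coe_pow] at hp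
    rw [F.translationNumber_of_map_pow_eq_add_int hp hq] at hirr
    exact hirr ⟨(p : ℚ) / (q : ℚ), by push_cast; rfl⟩

theorem image_subset (g h : HomeoPlus) :
    (fun a => g * a * h) '' Aper 1 ⊆ Aper (h⁻¹ * g⁻¹) := by
  rintro _ ⟨a, ha, rfl⟩ q hq x hx
  have e : (g * a * h * (h⁻¹ * g⁻¹)) ^ q = g * a ^ q * g⁻¹ := by
    rw [← conj_pow]; congr 1; group
  simp only [e] at hx
  apply ha q hq (toC g⁻¹ x)
  have e2 : toC ((a * 1) ^ q) (toC g⁻¹ x) = toC g⁻¹ (toC (g * a ^ q * g⁻¹) x) := by
    have : (a * 1) ^ q * g⁻¹ = g⁻¹ * (g * a ^ q * g⁻¹) := by group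
    exact congrArg (fun u => toC u x) this
  rw [e2, hx]

theorem main : IsHaarNull homeoTop irrationalRotation := by
  let _ : MeasurableSpace HomeoPlus := borel HomeoPlus
  have : BorelSpace HomeoPlus := ⟨rfl⟩
  have hm : Measurable Phi := Phi_continuous.measurable
  refine ⟨Aper 1, subset_Aper, Aper_measurable 1, PP.map Phi,
    Measure.isProbabilityMeasure_map hm.aemeasurable, fun g h => ?_⟩
  refine measure_mono_null (image_subset g h) ?_
  rw [Measure.map_apply hm (Aper_measurable _)]
  obtain ⟨G, hG⟩ := (h⁻¹ * g⁻¹).2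
  refine measure_mono_null (fun ω hω => ?_) (measure_aperiodic G (unit_continuous G))
  rintro ⟨q, hq, p, x, hx⟩
  apply hω q hq (x : UnitAddCircle)
  have hl : IsLift (flL ω * (G : CircleDeg1Lift) : CircleDeg1Lift) (Phi ω * (h⁻¹ * g⁻¹)).1 :=
    fun y => congrArg (homeo (flU ω)) (hG y)
  rw [lift_pow hl, hx]
  exact (coe_eq_iff.2 ⟨p, rfl⟩).symm

end Pool.Agent.P.MP_e0518f_lc
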